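import Pool.Agent.Results.MP_d2d93c_nt.FewExceptions
import Pool.Agent.U513.AP.IntTuples

/-!
# Miyazaki's shuffled Pythagorean equation for the pairs given by Diophantine approximations

The starting file bounds the number of the exceptional pairs `(f, g)` with `f ≤ N`. Here: for all points `α` outside of a set of small
Hausdorff dimension, the first two entries `(f, g)` of `G (k, u) + c`, `G` ANY nonsingular integral matrix, `c` any integral vector, are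
not exceptional at ANY approximation `(k, u)` of `α` with large `k`.
-/

set_option autoImplicit false

open Finset Filter MeasureTheory Topology

namespace Pool.Agent.Results.MP_d2d93c_nt.Approximations

open Pool.Agent.U513.AP
open Pool.Agent.Results.MP_d2d93c_nt.FewExceptions (Exceptional Pair)

/-- the exceptional pairs -/
def Exc : Set (Fin 2 → ℤ) := {s | ∃ f g : ℕ, (f : ℤ) = s 0 ∧ (g : ℤ) = s 1 ∧ (f, g) ∈ Exceptional}

lemma count (ε : ℝ) (hε : 0 < ε) : ∃ C : ℝ, ∀ T : ℕ, 1 ≤ T →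
    ({s : Fin 2 → ℤ | (∀ i, |s i| ≤ (T : ℤ)) ∧ s ∈ Exc}.ncard : ℝ) ≤ C * (T : ℝ) ^ (((2 : ℕ) : ℝ) - (4 / 3 - ε)) := by
  classical
  obtain ⟨C, K, hC0, hC⟩ := FewExceptions.result
  have hfin : ∀ N : ℕ, {e ∈ Exceptional | e.1 ≤ N}.Finite := by
    intro N
    refine Set.Finite.subset ((Set.finite_Iic N).prod (Set.finite_Iic N)) ?_
    rintro ⟨f, g⟩ ⟨⟨⟨_, h2, _⟩, _⟩, h1⟩
    exact ⟨h1, (le_of_lt h2).trans h1⟩
  have hkey : ∀ T : ℕ, {s : Fin 2 → ℤ | (∀ i, |s i| ≤ (T : ℤ)) ∧ s ∈ Exc}.ncard ≤ {e ∈ Exceptional | e.1 ≤ T}.ncard := by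
    intro T
    refine Set.ncard_le_ncard_of_injOn (fun s => ((s 0).toNat, (s 1).toNat)) ?_ ?_ (hfin T)
    · rintro s ⟨hs, f, g, hf, hg, hE⟩
      have hf' : (s 0).toNat = f := by rw [← hf]; exact Int.toNat_natCast f
      have hg' : (s 1).toNat = g := by rw [← hg]; exact Int.toNat_natCast g
      have hfT : f ≤ T := by
        have := hs 0
        rw [← hf, Nat.abs_cast] at this
        exact_mod_cast this
      simp only [Set.mem_ofPred_eq, hf', hg']
      exact ⟨hE, hfT⟩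
    · rintro s ⟨-, f, g, hf, hg, -⟩ s' ⟨-, f', g', hf', hg', -⟩ h
      simp only [Prod.mk.injEq] at h
      rw [← hf, ← hg, ← hf', ← hg'] at h
      simp only [Int.toNat_natCast] at h
      funext i
      refine Fin.cases ?_ (fun i => ?_) i
      · rw [← hf, ← hf', h.1]
      · have : i = 0 := Subsingleton.elim _ _
        rw [this]
        show s 1 = s' 1
        rw [← hg, ← hg', h.2]
  obtain ⟨M, hM⟩ : ∃ M : ℝ, ∀ T : ℕ, 2 ≤ T → Real.log T ^ K ≤ M * (T : ℝ) ^ ε := by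
    rcases Nat.eq_zero_or_pos K with hK | hK
    · refine ⟨1, fun T hT => ?_⟩
      have hT1 : (1 : ℝ) ≤ T := by exact_mod_cast (by omega : 1 ≤ T)
      rw [hK, pow_zero, one_mul]
      exact Real.one_le_rpow hT1 hε.le
    · have hK0 : (0 : ℝ) < K := by exact_mod_cast hK
      refine ⟨(K / ε) ^ K, fun T hT => ?_⟩
      have hT1 : (1 : ℝ) ≤ T := by exact_mod_cast (by omega : 1 ≤ T)
      have hT0 : (0 : ℝ) < T := by linarith
      have h1 : Real.log T ≤ (K / ε) * (T : ℝ) ^ (ε / K) := by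
        have h2 := Real.log_le_rpow_div hT0.le (show 0 < ε / K by positivity)
        refine h2.trans (le_of_eq ?_)
        field_simp
      calc Real.log T ^ K ≤ ((K / ε) * (T : ℝ) ^ (ε / K)) ^ K :=
            pow_le_pow_left₀ (Real.log_nonneg hT1) h1 K
        _ = _ := by
            rw [mul_pow, ← Real.rpow_natCast ((T : ℝ) ^ (ε / K)) K, ← Real.rpow_mul hT0.le]
            congr 2
            field_simp
  have hM0 : 0 ≤ M := by
    have h1 := hM 2 le_rfl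
    have h2 : 0 ≤ Real.log ((2 : ℕ) : ℝ) ^ K := pow_nonneg (Real.log_nonneg (by norm_num)) _
    have h3 : (0 : ℝ) < (((2 : ℕ) : ℝ)) ^ ε := by positivity
    by_contra hcon
    push Not at hcon
    nlinarith
  refine ⟨C * M + 4, fun T hT => ?_⟩
  have hT1 : (1 : ℝ) ≤ T := by exact_mod_cast hT
  have hT0 : (0 : ℝ) < T := by linarith
  have he : (((2 : ℕ) : ℝ) - (4 / 3 - ε)) = 2 / 3 + ε := by push_cast; ring
  rw [he]
  have hpow : 1 ≤ (T : ℝ) ^ (2 / 3 + ε) := Real.one_le_rpow hT1 (by positivity)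
  have hCM : 0 ≤ C * M := mul_nonneg hC0.le hM0
  rcases Nat.lt_or_ge T 2 with h2 | h2
  · have hT' : T = 1 := by omega
    have h3 : {e ∈ Exceptional | e.1 ≤ T}.ncard ≤ 4 := by
      refine (Set.ncard_le_ncard (t := ((Finset.Icc 0 1 ×ˢ Finset.Icc 0 1 : Finset (ℕ × ℕ)) : Set (ℕ × ℕ))) ?_
        (Finset.finite_toSet _)).trans ?_
      · rintro ⟨f, g⟩ ⟨⟨⟨_, h4, _⟩, _⟩, h5⟩
        simp only [Finset.coe_product, Set.mem_prod, Finset.mem_coe, Finset.mem_Icc] at h4 h5 ⊢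
        omega
      · rw [Set.ncard_coe_finset]
        decide
    have h4 : ({s : Fin 2 → ℤ | (∀ i, |s i| ≤ (T : ℤ)) ∧ s ∈ Exc}.ncard : ℝ) ≤ 4 := by
      exact_mod_cast (hkey T).trans h3
    nlinarith
  · have h3 : ({s : Fin 2 → ℤ | (∀ i, |s i| ≤ (T : ℤ)) ∧ s ∈ Exc}.ncard : ℝ) ≤
        C * (T : ℝ) ^ ((2 : ℝ) / 3) * Real.log T ^ K :=
      (Nat.cast_le.2 (hkey T)).trans (hC T h2)
    calc ({s : Fin 2 → ℤ | (∀ i, |s i| ≤ (T : ℤ)) ∧ s ∈ Exc}.ncard : ℝ)
        ≤ C * (T : ℝ) ^ ((2 : ℝ) / 3) * (M * (T : ℝ) ^ ε) :=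
          h3.trans (mul_le_mul_of_nonneg_left (hM T h2) (by positivity))
      _ = C * M * (T : ℝ) ^ (2 / 3 + ε) := by
          rw [Real.rpow_add hT0]
          ring
      _ ≤ _ := by nlinarith

/-- **Miyazaki's equation at all approximations of almost all points.** -/
theorem result (d : ℕ) (hd : 2 ≤ d + 1) (τ : ℝ) (hτ : 0 ≤ τ) (γ : Fin d → ℝ) :
    ∃ E : Set (Fin d → ℝ), dimH E ≤ ENNReal.ofReal ((d - 1 / 3) / (1 + τ)) ∧ volume E = 0 ∧
      ∀ α, α ∉ E → ∀ G : Matrix (Fin (d + 1)) (Fin (d + 1)) ℤ, G.det ≠ 0 → ∀ c : Fin (d + 1) → ℤ,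
        ∀ᶠ k : ℕ in atTop, ∀ u : Fin d → ℤ, (∀ i, |(k : ℝ) * α i - γ i - u i| ≤ (k : ℝ) ^ (-τ)) → ∀ f g : ℕ,
          (f : ℤ) = (G.mulVec (Fin.cons (k : ℤ) u) + c) (Fin.castLE hd 0) →
          (g : ℤ) = (G.mulVec (Fin.cons (k : ℤ) u) + c) (Fin.castLE hd 1) → (f, g) ∉ Exceptional := by
  classical
  have : Countable (Matrix (Fin (d + 1)) (Fin (d + 1)) ℤ) :=
    inferInstanceAs (Countable (Fin (d + 1) → Fin (d + 1) → ℤ))
  have hd1 : (1 : ℝ) ≤ d := by exact_mod_cast (by omega : 1 ≤ d)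
  have hε : ∀ n : ℕ, (0 : ℝ) < 1 / ((n : ℝ) + 1) := fun n => by positivity
  choose C hC using fun n : ℕ => count (1 / ((n : ℝ) + 1)) (hε n)
  choose E hE h using fun n : ℕ => int_law (d := d) (a := (d : ℝ) + 1 - (4 / 3 - 1 / ((n : ℝ) + 1)))
    (by have := hε n; linarith)
    (ι := {G : Matrix (Fin (d + 1)) (Fin (d + 1)) ℤ // G.det ≠ 0} × (Fin (d + 1) → ℤ))
    (fun i s => first hd i.1.1 i.2 s ∈ Exc)
    (fun i => count_first hd (hC n) i.1.1 i.1.2 i.2) hτ γ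
  have hdim : dimH (⋂ n, E n) ≤ ENNReal.ofReal ((d - 1 / 3) / (1 + τ)) := by
    have ht : Tendsto (fun n : ℕ => ENNReal.ofReal (((d : ℝ) + 1 - (4 / 3 - 1 / ((n : ℝ) + 1))) / (1 + τ)))
        atTop (𝓝 (ENNReal.ofReal ((d - 1 / 3) / (1 + τ)))) := by
      apply ENNReal.tendsto_ofReal
      have t0 : Tendsto (fun n : ℕ => 1 / ((n : ℝ) + 1)) atTop (𝓝 0) := tendsto_one_div_add_atTop_nhds_zero_nat
      have t1 : Tendsto (fun n : ℕ => ((d : ℝ) + 1 - (4 / 3 - 1 / ((n : ℝ) + 1))) / (1 + τ))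
          atTop (𝓝 (((d : ℝ) + 1 - (4 / 3 - 0)) / (1 + τ))) :=
        ((t0.const_sub (4 / 3)).const_sub ((d : ℝ) + 1)).div_const _
      have e1 : ((d : ℝ) + 1 - (4 / 3 - 0)) = d - 1 / 3 := by ring
      rwa [e1] at t1
    exact ge_of_tendsto ht (Eventually.of_forall fun n => (dimH_mono (Set.iInter_subset E n)).trans (hE n))
  refine ⟨⋂ n, E n, hdim, ?_, ?_⟩
  · refine null_of_dim (by omega) hdim ?_
    rw [div_lt_iff₀ (by linarith)]
    nlinarith
  · intro α hα G hG c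
    rw [Set.mem_iInter, not_forall] at hα
    obtain ⟨n, hn⟩ := hα
    filter_upwards [h n α hn (⟨G, hG⟩, c)] with k hk u hu f g hf hg hcon
    exact hk u hu ⟨f, g, hf, hg, hcon⟩

end Pool.Agent.Results.MP_d2d93c_nt.Approximations
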